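import Pool.Agent.H46.VIO.Stmts

/-!
# VIO, row HGT: the quotient of the products is a `g`-th power times a number of small height
-/

set_option autoImplicit false

namespace Pool.VIO

open Finset Pool.Agent.H98.ABCR Pool.SHA Pool.ABY

namespace HGTaux

/-- the logarithm of the numerator of `U / V` -/
theorem log_quot (U V : ℕ) (hU : U ≠ 0) (hV : V ≠ 0) (P : Finset ℕ) (hP : U.primeFactors ⊆ P)
    (hP1 : ∀ p ∈ P, p.Prime) (c : ℝ)
    (h : ∑ p ∈ P, |(U.factorization p : ℝ) - V.factorization p| * Real.log p ≤ c) :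
    Real.log ((U / U.gcd V : ℕ) : ℝ) ≤ c := by
  refine le_trans ?_ h
  obtain ⟨N, hN⟩ : ∃ N, N = U / U.gcd V := ⟨_, rfl⟩
  rw [← hN]
  have hg : U.gcd V ∣ U := Nat.gcd_dvd_left U V
  have hN0 : N ≠ 0 := by
    rw [hN]
    exact (Nat.div_pos (Nat.le_of_dvd (Nat.pos_of_ne_zero hU) hg)
      (Nat.gcd_pos_of_pos_left V (Nat.pos_of_ne_zero hU))).ne'
  have hNU : N ∣ U := by
    rw [hN]
    exact Nat.div_dvd_of_dvd hg
  have hsub : N.primeFactors ⊆ P := (Nat.primeFactors_mono hNU hU).trans hP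
  have e1 : N = ∏ p ∈ P, p ^ N.factorization p := by
    conv_lhs => rw [← Nat.factorization_prod_pow_eq_self hN0]
    rw [Nat.prod_factorization_eq_prod_primeFactors]
    refine Finset.prod_subset hsub (fun p _ hp => ?_)
    rw [← Nat.support_factorization, Finsupp.notMem_support_iff] at hp
    rw [hp, pow_zero]
  have e2 : Real.log (N : ℝ) = ∑ p ∈ P, (N.factorization p : ℝ) * Real.log p := by
    conv_lhs => rw [e1]
    push_cast
    rw [Real.log_prod (fun p hp => pow_ne_zero _ (by exact_mod_cast (hP1 p hp).ne_zero))]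
    exact Finset.sum_congr rfl (fun p _ => Real.log_pow _ _)
  rw [e2]
  refine Finset.sum_le_sum (fun p _ => mul_le_mul_of_nonneg_right ?_ (Real.log_natCast_nonneg p))
  have e3 : N.factorization p = U.factorization p - min (U.factorization p) (V.factorization p) := by
    rw [hN, Nat.factorization_div hg, Nat.factorization_gcd hU hV]
    rfl
  rw [e3]
  rcases le_total (U.factorization p) (V.factorization p) with h1 | h1
  · rw [min_eq_left h1, Nat.sub_self, Nat.cast_zero]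
    exact abs_nonneg _
  · rw [min_eq_right h1, Nat.cast_sub h1]
    exact le_abs_self _

theorem coord_ne_zero (v : ℕ × ℕ) (h : IsTri v) (s : Fin 3) : coord v s ≠ 0 := by
  obtain ⟨h1, h2, -⟩ := h
  fin_cases s
  · exact h1.ne'
  · exact h2.ne'
  · change v.1 + v.2 ≠ 0
    omega

theorem rt_ne_zero (μ : ℕ × ℕ → ℕ → ℕ) (s : Fin 3) (v : ℕ × ℕ) : rt μ s v ≠ 0 :=
  Finset.prod_ne_zero_iff.2
    (fun _ hp => pow_ne_zero _ (Nat.prime_of_mem_primeFactors hp).ne_zero)

theorem rt_fac (μ : ℕ × ℕ → ℕ → ℕ) (s : Fin 3) (v : ℕ × ℕ) (p : ℕ) :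
    (rt μ s v).factorization p = if p ∈ (coord v s).primeFactors then μ v p else 0 := by
  rw [rt, Nat.factorization_prod (fun q hq => pow_ne_zero _
    (Nat.prime_of_mem_primeFactors hq).ne_zero), Finsupp.finset_sum_apply]
  by_cases hp : p ∈ (coord v s).primeFactors
  · rw [if_pos hp, Finset.sum_eq_single p]
    · rw [Nat.factorization_pow, Finsupp.smul_apply,
        (Nat.prime_of_mem_primeFactors hp).factorization_self, smul_eq_mul, mul_one]
    · intro q hq hqp
      rw [Nat.factorization_pow, Finsupp.smul_apply,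
        (Nat.prime_of_mem_primeFactors hq).factorization, Finsupp.single_apply, if_neg hqp,
        smul_zero]
    · intro h
      exact absurd hp h
  · rw [if_neg hp]
    refine Finset.sum_eq_zero (fun q hq => ?_)
    rw [Nat.factorization_pow, Finsupp.smul_apply,
      (Nat.prime_of_mem_primeFactors hq).factorization, Finsupp.single_apply, if_neg, smul_zero]
    rintro rfl
    exact hp hq

theorem fac_big (A B : Finset (ℕ × ℕ)) (g : ℕ) (c1 c2 r1 r2 : ℕ × ℕ → ℕ)
    (h1 : ∀ v ∈ A, c1 v ≠ 0 ∧ r1 v ≠ 0) (h2 : ∀ v ∈ B, c2 v ≠ 0 ∧ r2 v ≠ 0) (p : ℕ) :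
    ((((∏ v ∈ A, c1 v) * (∏ v ∈ B, c2 v) * ((∏ v ∈ A, r1 v) * ∏ v ∈ B, r2 v) ^ g).factorization p
      : ℕ) : ℝ) = (∑ v ∈ A, ((c1 v).factorization p : ℝ)) + (∑ v ∈ B, ((c2 v).factorization p : ℝ)) +
        g * ((∑ v ∈ A, ((r1 v).factorization p : ℝ)) + ∑ v ∈ B, ((r2 v).factorization p : ℝ)) := by
  have n1 : ∏ v ∈ A, c1 v ≠ 0 := Finset.prod_ne_zero_iff.2 (fun v hv => (h1 v hv).1)
  have n2 : ∏ v ∈ B, c2 v ≠ 0 := Finset.prod_ne_zero_iff.2 (fun v hv => (h2 v hv).1)
  have n3 : ∏ v ∈ A, r1 v ≠ 0 := Finset.prod_ne_zero_iff.2 (fun v hv => (h1 v hv).2)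
  have n4 : ∏ v ∈ B, r2 v ≠ 0 := Finset.prod_ne_zero_iff.2 (fun v hv => (h2 v hv).2)
  rw [Nat.factorization_mul (mul_ne_zero n1 n2) (pow_ne_zero _ (mul_ne_zero n3 n4)),
    Nat.factorization_mul n1 n2, Nat.factorization_pow, Nat.factorization_mul n3 n4,
    Nat.factorization_prod (fun v hv => (h1 v hv).1),
    Nat.factorization_prod (fun v hv => (h2 v hv).1),
    Nat.factorization_prod (fun v hv => (h1 v hv).2),
    Nat.factorization_prod (fun v hv => (h2 v hv).2)]
  simp only [Finsupp.add_apply, Finsupp.smul_apply, Finsupp.finset_sum_apply, smul_eq_mul]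
  push_cast
  ring

end HGTaux

open HGTaux in
/-- HGT with `0 ≤ b`. -/
theorem hgt_aux (g : ℕ) (K : Finset ℕ) (μ : ℕ × ℕ → ℕ → ℕ) (j k : Fin 3)
    (A B : Finset (ℕ × ℕ)) (a b : ℝ) (hb : 0 ≤ b) (hK : ∀ q ∈ K, q.Prime)
    (hcard : A.card = B.card)
    (h1 : ∀ v ∈ A ∪ B, IsTri v ∧ (∀ q ∈ K, μ v q = 0) ∧ rst g K μ j v ≤ a ∧ rst g K μ k v ≤ a)
    (h2 : ∀ v ∈ A ∪ B, ∀ v' ∈ A ∪ B, ∀ s, ∀ q ∈ K,
      |((coord v s).factorization q : ℝ) - (coord v' s).factorization q| * Real.log q *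
        (K.card + 1) ≤ b) :
    ∃ N D : ℕ, 0 < N ∧ 0 < D ∧ N.Coprime D ∧
    (∏ v ∈ A, coord v k) * (∏ v ∈ B, coord v j) *
        ((∏ v ∈ A, rt μ j v) * ∏ v ∈ B, rt μ k v) ^ g * D =
      (∏ v ∈ A, coord v j) * (∏ v ∈ B, coord v k) *
        ((∏ v ∈ A, rt μ k v) * ∏ v ∈ B, rt μ j v) ^ g * N ∧
    Real.log N ≤ A.card * (4 * a + 2 * b) ∧ Real.log D ≤ A.card * (4 * a + 2 * b) := by
  classical
  obtain ⟨U, hU⟩ : ∃ U, U = (∏ v ∈ A, coord v k) * (∏ v ∈ B, coord v j) *
        ((∏ v ∈ A, rt μ j v) * ∏ v ∈ B, rt μ k v) ^ g := ⟨_, rfl⟩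
  obtain ⟨V, hV⟩ : ∃ V, V = (∏ v ∈ A, coord v j) * (∏ v ∈ B, coord v k) *
        ((∏ v ∈ A, rt μ k v) * ∏ v ∈ B, rt μ j v) ^ g := ⟨_, rfl⟩
  rw [← hU, ← hV]
  have hA : ∀ v ∈ A, ∀ s, coord v s ≠ 0 ∧ rt μ s v ≠ 0 := fun v hv s =>
    ⟨coord_ne_zero v (h1 v (mem_union_left _ hv)).1 s, rt_ne_zero μ s v⟩
  have hB : ∀ v ∈ B, ∀ s, coord v s ≠ 0 ∧ rt μ s v ≠ 0 := fun v hv s =>
    ⟨coord_ne_zero v (h1 v (mem_union_right _ hv)).1 s, rt_ne_zero μ s v⟩
  have hU0 : U ≠ 0 := by
    rw [hU]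
    exact mul_ne_zero (mul_ne_zero (Finset.prod_ne_zero_iff.2 (fun v hv => (hA v hv k).1))
      (Finset.prod_ne_zero_iff.2 (fun v hv => (hB v hv j).1))) (pow_ne_zero _ (mul_ne_zero
        (Finset.prod_ne_zero_iff.2 (fun v hv => (hA v hv j).2))
        (Finset.prod_ne_zero_iff.2 (fun v hv => (hB v hv k).2))))
  have hV0 : V ≠ 0 := by
    rw [hV]
    exact mul_ne_zero (mul_ne_zero (Finset.prod_ne_zero_iff.2 (fun v hv => (hA v hv j).1))
      (Finset.prod_ne_zero_iff.2 (fun v hv => (hB v hv k).1))) (pow_ne_zero _ (mul_ne_zero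
        (Finset.prod_ne_zero_iff.2 (fun v hv => (hA v hv k).2))
        (Finset.prod_ne_zero_iff.2 (fun v hv => (hB v hv j).2))))
  -- the exponents
  obtain ⟨f, hf⟩ : ∃ f : Fin 3 → ℕ → ℕ × ℕ → ℝ, f = fun s p v =>
    ((coord v s).factorization p : ℝ) - g * (rt μ s v).factorization p := ⟨_, rfl⟩
  have hdiff : ∀ p, (U.factorization p : ℝ) - V.factorization p =
      (∑ v ∈ A, f k p v - ∑ v ∈ B, f k p v) - (∑ v ∈ A, f j p v - ∑ v ∈ B, f j p v) := by
    intro p
    rw [hU, hV, fac_big A B g (fun v => coord v k) (fun v => coord v j) (fun v => rt μ j v)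
      (fun v => rt μ k v) (fun v hv => ⟨(hA v hv k).1, (hA v hv j).2⟩)
      (fun v hv => ⟨(hB v hv j).1, (hB v hv k).2⟩),
      fac_big A B g (fun v => coord v j) (fun v => coord v k) (fun v => rt μ k v)
      (fun v => rt μ j v) (fun v hv => ⟨(hA v hv j).1, (hA v hv k).2⟩)
      (fun v hv => ⟨(hB v hv k).1, (hB v hv j).2⟩), hf]
    simp only [Finset.sum_sub_distrib, ← Finset.mul_sum]
    ring
  obtain ⟨P, hP⟩ : ∃ P, P = (U * V).primeFactors ∪ K := ⟨_, rfl⟩
  have hP1 : ∀ p ∈ P, p.Prime := by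
    intro p hp
    rw [hP, mem_union] at hp
    rcases hp with hp | hp
    · exact Nat.prime_of_mem_primeFactors hp
    · exact hK p hp
  have hUP : U.primeFactors ⊆ P := by
    rw [hP]
    exact (Nat.primeFactors_mono (Nat.dvd_mul_right U V) (mul_ne_zero hU0 hV0)).trans
      subset_union_left
  have hVP : V.primeFactors ⊆ P := by
    rw [hP]
    exact (Nat.primeFactors_mono (Nat.dvd_mul_left V U) (mul_ne_zero hU0 hV0)).trans
      subset_union_left
  have hKP : K ⊆ P := by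
    rw [hP]
    exact subset_union_right
  -- the primes outside `K`
  have hout : ∀ v ∈ A ∪ B, ∀ s, rst g K μ s v ≤ a →
      ∑ p ∈ P \ K, |f s p v| * Real.log p ≤ a := by
    intro v _ s hs
    refine le_trans ?_ hs
    rw [rst]
    have e1 : ∑ p ∈ P \ K, |f s p v| * Real.log p =
        ∑ p ∈ (P \ K) ∩ ((coord v s).primeFactors \ K), |f s p v| * Real.log p := by
      symm
      refine Finset.sum_subset inter_subset_left (fun p hp hp' => ?_)
      have h3 : p ∉ (coord v s).primeFactors := by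
        intro h4
        exact hp' (mem_inter.2 ⟨hp, mem_sdiff.2 ⟨h4, (mem_sdiff.1 hp).2⟩⟩)
      have h4 : (coord v s).factorization p = 0 := by
        rw [← Nat.support_factorization, Finsupp.notMem_support_iff] at h3
        exact h3
      rw [hf]
      simp only
      rw [rt_fac, if_neg h3, h4]
      simp
    rw [e1]
    refine le_trans (Finset.sum_le_sum_of_subset_of_nonneg inter_subset_right
      (fun p _ _ => mul_nonneg (abs_nonneg _) (Real.log_natCast_nonneg p))) ?_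
    refine le_of_eq (Finset.sum_congr rfl (fun p hp => ?_))
    rw [hf]
    simp only
    rw [rt_fac, if_pos (mem_sdiff.1 hp).1]
  -- the primes of `K`
  have hfK : ∀ v ∈ A ∪ B, ∀ s, ∀ q ∈ K, f s q v = ((coord v s).factorization q : ℝ) := by
    intro v hv s q hq
    rw [hf]
    simp only
    rw [rt_fac, (h1 v hv).2.1 q hq, ite_self]
    simp
  have hin : ∀ s, ∀ q ∈ K, |∑ v ∈ A, f s q v - ∑ v ∈ B, f s q v| * Real.log q * (K.card + 1) ≤
      A.card * b := by
    intro s q hq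
    have e : A ≃ B := Finset.equivOfCardEq hcard
    have e1 : ∑ v ∈ A, f s q v - ∑ v ∈ B, f s q v =
        ∑ v : A, (f s q (v : ℕ × ℕ) - f s q (e v : ℕ × ℕ)) := by
      rw [Finset.sum_sub_distrib, Finset.sum_coe_sort A (fun v => f s q v),
        Equiv.sum_comp e (fun v : B => f s q (v : ℕ × ℕ)), Finset.sum_coe_sort B (fun v => f s q v)]
    rw [e1]
    have hlog : 0 ≤ Real.log (q : ℝ) := Real.log_natCast_nonneg q
    have e2 : |∑ v : A, (f s q (v : ℕ × ℕ) - f s q (e v : ℕ × ℕ))| * Real.log q * (K.card + 1) ≤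
        ∑ v : A, |f s q (v : ℕ × ℕ) - f s q (e v : ℕ × ℕ)| * Real.log q * (K.card + 1) := by
      rw [← Finset.sum_mul, ← Finset.sum_mul]
      exact mul_le_mul_of_nonneg_right (mul_le_mul_of_nonneg_right
        (Finset.abs_sum_le_sum_abs _ _) hlog) (by positivity)
    refine e2.trans ?_
    have e3 : ∀ v ∈ (univ : Finset A), |f s q (v : ℕ × ℕ) - f s q (e v : ℕ × ℕ)| * Real.log q *
        (K.card + 1) ≤ b := by
      intro v _
      have hv : (v : ℕ × ℕ) ∈ A ∪ B := mem_union_left _ v.2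
      have hv' : (e v : ℕ × ℕ) ∈ A ∪ B := mem_union_right _ (e v).2
      rw [hfK _ hv s q hq, hfK _ hv' s q hq]
      exact h2 _ hv _ hv' s q hq
    refine (Finset.sum_le_sum e3).trans ?_
    rw [Finset.sum_const, nsmul_eq_mul, Finset.card_univ, Fintype.card_coe]
  -- the total
  have hAB : ∀ (x : ℕ × ℕ → ℝ) (y : ℝ), (∀ v ∈ A ∪ B, x v ≤ y) →
      ∑ v ∈ A, x v + ∑ v ∈ B, x v ≤ 2 * A.card * y := by
    intro x y hx
    have h3 : ∑ v ∈ A, x v ≤ A.card * y := by
      refine (Finset.sum_le_sum (fun v hv => hx v (mem_union_left _ hv))).trans ?_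
      rw [Finset.sum_const, nsmul_eq_mul]
    have h4 : ∑ v ∈ B, x v ≤ A.card * y := by
      refine (Finset.sum_le_sum (fun v hv => hx v (mem_union_right _ hv))).trans ?_
      rw [Finset.sum_const, nsmul_eq_mul, hcard]
    linarith
  have hmain : ∑ p ∈ P, |(U.factorization p : ℝ) - V.factorization p| * Real.log p ≤
      A.card * (4 * a + 2 * b) := by
    rw [← Finset.sum_sdiff hKP]
    have p1 : ∑ p ∈ P \ K, |(U.factorization p : ℝ) - V.factorization p| * Real.log p ≤
        A.card * (4 * a) := by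
      have q1 : ∀ p ∈ P \ K, |(U.factorization p : ℝ) - V.factorization p| * Real.log p ≤
          ((∑ v ∈ A, |f k p v| * Real.log p) + ∑ v ∈ B, |f k p v| * Real.log p) +
          ((∑ v ∈ A, |f j p v| * Real.log p) + ∑ v ∈ B, |f j p v| * Real.log p) := by
        intro p _
        have hlog : 0 ≤ Real.log (p : ℝ) := Real.log_natCast_nonneg p
        rw [hdiff]
        simp only [← Finset.sum_mul]
        rw [← add_mul, ← add_mul, ← add_mul]
        refine mul_le_mul_of_nonneg_right ?_ hlog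
        have a1 := Finset.abs_sum_le_sum_abs (fun v => f k p v) A
        have a2 := Finset.abs_sum_le_sum_abs (fun v => f k p v) B
        have a3 := Finset.abs_sum_le_sum_abs (fun v => f j p v) A
        have a4 := Finset.abs_sum_le_sum_abs (fun v => f j p v) B
        have a5 := abs_sub (∑ v ∈ A, f k p v - ∑ v ∈ B, f k p v)
          (∑ v ∈ A, f j p v - ∑ v ∈ B, f j p v)
        have a6 := abs_sub (∑ v ∈ A, f k p v) (∑ v ∈ B, f k p v)
        have a7 := abs_sub (∑ v ∈ A, f j p v) (∑ v ∈ B, f j p v)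
        linarith
      refine (Finset.sum_le_sum q1).trans ?_
      rw [Finset.sum_add_distrib, Finset.sum_add_distrib, Finset.sum_add_distrib]
      rw [Finset.sum_comm (s := P \ K) (t := A) (f := fun p v => |f k p v| * Real.log p),
        Finset.sum_comm (s := P \ K) (t := B) (f := fun p v => |f k p v| * Real.log p),
        Finset.sum_comm (s := P \ K) (t := A) (f := fun p v => |f j p v| * Real.log p),
        Finset.sum_comm (s := P \ K) (t := B) (f := fun p v => |f j p v| * Real.log p)]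
      have b1 := hAB (fun v => ∑ p ∈ P \ K, |f k p v| * Real.log p) a
        (fun v hv => hout v hv k (h1 v hv).2.2.2)
      have b2 := hAB (fun v => ∑ p ∈ P \ K, |f j p v| * Real.log p) a
        (fun v hv => hout v hv j (h1 v hv).2.2.1)
      linarith
    have p2 : ∑ p ∈ K, |(U.factorization p : ℝ) - V.factorization p| * Real.log p ≤
        A.card * (2 * b) := by
      have q1 : ∀ p ∈ K, |(U.factorization p : ℝ) - V.factorization p| * Real.log p ≤
          A.card * (2 * b) / (K.card + 1) := by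
        intro p hp
        have hlog : 0 ≤ Real.log (p : ℝ) := Real.log_natCast_nonneg p
        rw [le_div_iff₀ (by positivity), hdiff]
        have a1 := hin k p hp
        have a2 := hin j p hp
        have a3 := abs_sub (∑ v ∈ A, f k p v - ∑ v ∈ B, f k p v)
          (∑ v ∈ A, f j p v - ∑ v ∈ B, f j p v)
        have a4 : |(∑ v ∈ A, f k p v - ∑ v ∈ B, f k p v) -
            (∑ v ∈ A, f j p v - ∑ v ∈ B, f j p v)| * Real.log p * (K.card + 1) ≤
            (|∑ v ∈ A, f k p v - ∑ v ∈ B, f k p v| +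
              |∑ v ∈ A, f j p v - ∑ v ∈ B, f j p v|) * Real.log p * (K.card + 1) :=
          mul_le_mul_of_nonneg_right (mul_le_mul_of_nonneg_right a3 hlog) (by positivity)
        linarith
      refine (Finset.sum_le_sum q1).trans ?_
      rw [Finset.sum_const, nsmul_eq_mul, mul_div_assoc', div_le_iff₀ (by positivity)]
      have c1 : (0 : ℝ) ≤ A.card * (2 * b) := by positivity
      nlinarith
    linarith
  have hg0 : 0 < U.gcd V := Nat.gcd_pos_of_pos_left V (Nat.pos_of_ne_zero hU0)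
  refine ⟨U / U.gcd V, V / U.gcd V, Nat.div_pos (Nat.le_of_dvd (Nat.pos_of_ne_zero hU0)
    (Nat.gcd_dvd_left U V)) hg0, Nat.div_pos (Nat.le_of_dvd (Nat.pos_of_ne_zero hV0)
    (Nat.gcd_dvd_right U V)) hg0, Nat.coprime_div_gcd_div_gcd hg0, ?_, ?_, ?_⟩
  · rw [← Nat.mul_div_assoc _ (Nat.gcd_dvd_right U V),
      ← Nat.mul_div_assoc _ (Nat.gcd_dvd_left U V), mul_comm]
  · exact log_quot U V hU0 hV0 P hUP hP1 _ hmain
  · rw [Nat.gcd_comm]
    refine log_quot V U hV0 hU0 P hVP hP1 _ ?_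
    refine le_trans (le_of_eq (Finset.sum_congr rfl (fun p _ => ?_))) hmain
    rw [abs_sub_comm]

/-- **HGT.** -/
theorem hgt_thm : S_HGT :=
  fun g K μ j k A B a b _ hb _ hK _ hcard h1 h2 => hgt_aux g K μ j k A B a b hb hK hcard h1 h2

end Pool.VIO
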